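import Pool.Agent.L7h57.RV.Stm

/-! Project RV: PROP (copy of part of RevConfig without the shape hypothesis on `v`). -/

namespace Pool.Agent.L7h99.RV

open MvPolynomial Finset Pool.Helper89.Rev Pool.Agent.L7h57.RV

variable {n : ℕ}

lemma sum_zero_of_comm {v : Fin n → ℂ}
    {Φ : Fin n → MvPolynomial (Fin n) ℂ} (hΦ : ReflComm v Φ) (i0 : Fin n) (hi0 : v i0 ≠ 0)
    (y : Fin n → ℂ) (hy : ∑ j, y j = 0) : ∑ j, eval y (Φ j) = 0 := by
  have h := hΦ y i0
  rw [hy] at h
  simp only [mul_zero, zero_mul, sub_zero] at h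
  have h2 : 2 * (∑ j, eval y (Φ j)) * v i0 = 0 := by linear_combination h
  have h3 : (2 : ℂ) ≠ 0 := two_ne_zero
  rcases mul_eq_zero.1 h2 with h4 | h4
  · rcases mul_eq_zero.1 h4 with h5 | h5
    · exact absurd h5 h3
    · exact h5
  · exact absurd h4 hi0


lemma torus_hyperplane {v : Fin n → ℂ}
    {Φ : Fin n → MvPolynomial (Fin n) ℂ} (hΦ : ReflComm v Φ) (hT : TorusComm Φ)
    (i0 : Fin n) (hi0 : v i0 ≠ 0)
    (lam : Fin n → ℂ) (hlam : IsTorus lam)
    (y : Fin n → ℂ) (hy : ∑ j, lam j * y j = 0) : ∑ j, lam j * eval y (Φ j) = 0 := by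
  have h := sum_zero_of_comm hΦ i0 hi0 (fun k => lam k * y k) hy
  rw [← h]
  exact Finset.sum_congr rfl fun j _ => (hT lam hlam y j).symm

lemma pair_identities {v : Fin n → ℂ}
    {Φ : Fin n → MvPolynomial (Fin n) ℂ} (hΦ : ReflComm v Φ) (hT : TorusComm Φ)
    (i0 : Fin n) (hi0 : v i0 ≠ 0) (l : Fin n) (hl : Fin.rev l ≠ l)
    (mu : Fin n → ℂ) (hmu : IsTorus mu) :
    ∀ y : Fin n → ℂ,
      (∑ j ∈ (univ.erase l).erase (Fin.rev l), mu j * eval y (Φ j)) * y l =
        (∑ j ∈ (univ.erase l).erase (Fin.rev l), mu j * y j) * eval y (Φ l) ∧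
      eval y (Φ (Fin.rev l)) * y l = eval y (Φ l) * y (Fin.rev l) := by
  classical
  set S := (univ.erase l).erase (Fin.rev l) with hS
  set cp : MvPolynomial (Fin n) ℂ := ∑ j ∈ S, C (mu j) * X j with hcp
  set Cp : MvPolynomial (Fin n) ℂ := ∑ j ∈ S, C (mu j) * Φ j with hCp
  set g : MvPolynomial (Fin n) ℂ := X l * X (Fin.rev l) * (cp ^ 2 - 4 * X l * X (Fin.rev l)) with hg
  have g0 : g ≠ 0 := by
    apply ne_zero_of_eval (fun k => if k = l ∨ k = Fin.rev l then 1 else 0)
    have hc0 : eval (fun k => if k = l ∨ k = Fin.rev l then (1:ℂ) else 0) cp = 0 := by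
      rw [hcp, map_sum]
      apply Finset.sum_eq_zero
      intro j hj
      have h1 : j ≠ Fin.rev l := (mem_erase.1 hj).1
      have h2 : j ≠ l := (mem_erase.1 (mem_erase.1 hj).2).1
      simp [h1, h2]
    rw [hg]
    simp only [map_mul, map_sub, map_pow, hc0, eval_X]
    simp
  have evc : ∀ y : Fin n → ℂ, eval y cp = ∑ j ∈ S, mu j * y j := by
    intro y; rw [hcp, map_sum]; simp
  have evC : ∀ y : Fin n → ℂ, eval y Cp = ∑ j ∈ S, mu j * eval y (Φ j) := by
    intro y; rw [hCp, map_sum]; simp
  have key : ∀ y : Fin n → ℂ, eval y g ≠ 0 →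
      eval y Cp * y l = eval y cp * eval y (Φ l) ∧
        eval y (Φ (Fin.rev l)) * y l = eval y (Φ l) * y (Fin.rev l) := by
    intro y hy
    rw [hg] at hy
    simp only [map_mul, map_sub, map_pow, eval_X] at hy
    have a1 : y l ≠ 0 := fun h => hy (by rw [h]; ring)
    have a2 : y (Fin.rev l) ≠ 0 := fun h => hy (by rw [h]; ring)
    have a3 : eval y cp ^ 2 - 4 * y l * y (Fin.rev l) ≠ 0 := by
      intro h
      apply hy
      have : (eval y) 4 = (4:ℂ) := by
        rw [show (4 : MvPolynomial (Fin n) ℂ) = C 4 from rfl, eval_C]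
      rw [this, h, mul_zero]
    apply quad_arg (y l) (y (Fin.rev l)) (eval y cp) (eval y (Φ l)) (eval y (Φ (Fin.rev l)))
      (eval y Cp) a1 a2 a3
    intro z hz hzz
    have hlam := isTorus_update hmu l hl z hz
    have hex : ∀ f : Fin n → ℂ, ∑ j, (if j = l then z else if j = Fin.rev l then z⁻¹ else mu j) * f j
        = z * f l + z⁻¹ * f (Fin.rev l) + ∑ j ∈ S, mu j * f j := by
      intro f
      rw [sum_split l hl]
      simp only [if_true, hl, if_false]
      congr 1
      apply Finset.sum_congr rfl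
      intro j hj
      have h1 : j ≠ Fin.rev l := (mem_erase.1 hj).1
      have h2 : j ≠ l := (mem_erase.1 (mem_erase.1 hj).2).1
      simp [h1, h2]
    have := torus_hyperplane hΦ hT i0 hi0 _ hlam y (by rw [hex, ← evc]; exact hzz)
    rw [hex] at this
    rw [evC]
    exact this
  intro y
  constructor
  · have h := mul_eval_eq_zero (g := g) (h := Cp * X l - cp * Φ l) g0 (by
      intro y
      by_cases hy : eval y g = 0
      · rw [hy, zero_mul]
      · have := (key y hy).1
        simp only [map_sub, map_mul, eval_X]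
        rw [this, sub_self, mul_zero]) y
    simp only [map_sub, map_mul, eval_X] at h
    rw [← evc y, ← evC y]
    linear_combination h
  · have h := mul_eval_eq_zero (g := g) (h := Φ (Fin.rev l) * X l - Φ l * X (Fin.rev l)) g0 (by
      intro y
      by_cases hy : eval y g = 0
      · rw [hy, zero_mul]
      · have := (key y hy).2
        simp only [map_sub, map_mul, eval_X]
        rw [this, sub_self, mul_zero]) y
    simp only [map_sub, map_mul, eval_X] at h
    linear_combination h

/-- `Φ` is everywhere proportional to the identity -/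
lemma proportional {v : Fin n → ℂ}
    {Φ : Fin n → MvPolynomial (Fin n) ℂ} (hΦ : ReflComm v Φ) (hT : TorusComm Φ)
    (i0 : Fin n) (hi0 : v i0 ≠ 0) (l : Fin n) (hl : Fin.rev l ≠ l) (i : Fin n) (y : Fin n → ℂ) :
    eval y (Φ i) * y l = y i * eval y (Φ l) := by
  classical
  -- full sums
  have full : ∀ mu : Fin n → ℂ, IsTorus mu →
      ∑ j, mu j * (eval y (Φ j) * y l - y j * eval y (Φ l)) = 0 := by
    intro mu hmu
    obtain ⟨h1, h2⟩ := pair_identities hΦ hT i0 hi0 l hl mu hmu y
    rw [sum_split l hl]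
    have e1 : ∑ j ∈ (univ.erase l).erase (Fin.rev l),
        mu j * (eval y (Φ j) * y l - y j * eval y (Φ l)) =
        (∑ j ∈ (univ.erase l).erase (Fin.rev l), mu j * eval y (Φ j)) * y l -
        (∑ j ∈ (univ.erase l).erase (Fin.rev l), mu j * y j) * eval y (Φ l) := by
      rw [Finset.sum_mul, Finset.sum_mul, ← Finset.sum_sub_distrib]
      apply Finset.sum_congr rfl
      intro j _
      ring
    rw [e1, h1, sub_self, add_zero]
    linear_combination mu (Fin.rev l) * h2
  set D : Fin n → ℂ := fun j => eval y (Φ j) * y l - y j * eval y (Φ l) with hD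
  have D0 : ∀ j, Fin.rev j ≠ j → D j = 0 := by
    intro j hj
    have f1 := full _ isTorus_one
    have f2 := full _ (isTorus_update isTorus_one j hj (-1) (by norm_num))
    have f3 := full _ (isTorus_update isTorus_one j hj 2 (by norm_num))
    have ex : ∀ z : ℂ, ∑ k, (if k = j then z else if k = Fin.rev j then z⁻¹ else 1) * D k =
        z * D j + z⁻¹ * D (Fin.rev j) + ∑ k ∈ (univ.erase j).erase (Fin.rev j), D k := by
      intro z
      rw [sum_split j hj]
      simp only [if_true, hj, if_false]
      congr 1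
      apply Finset.sum_congr rfl
      intro k hk
      have h1 : k ≠ Fin.rev j := (mem_erase.1 hk).1
      have h2 : k ≠ j := (mem_erase.1 (mem_erase.1 hk).2).1
      simp [h1, h2]
    have g2 := ex (-1)
    have g3 := ex 2
    have g1 := ex 1
    have f1' : ∑ k, (if k = j then (1:ℂ) else if k = Fin.rev j then (1:ℂ)⁻¹ else 1) * D k = 0 := by
      rw [← f1]
      apply Finset.sum_congr rfl
      intro k _
      simp [hD]
    rw [f1'] at g1
    rw [f2] at g2
    rw [f3] at g3
    have i1 : (1:ℂ)⁻¹ = 1 := by norm_num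
    have i2 : (-1:ℂ)⁻¹ = -1 := by norm_num
    rw [i1] at g1
    rw [i2] at g2
    have e : (2:ℂ)⁻¹ = 1/2 := by norm_num
    rw [e] at g3
    linear_combination (-2/3 : ℂ) * g3 + (1/2 : ℂ) * g1 + (1/6 : ℂ) * g2
  by_cases hi : Fin.rev i = i
  · have f1 := full _ isTorus_one
    have : ∑ j, (1:ℂ) * (eval y (Φ j) * y l - y j * eval y (Φ l)) = D i := by
      rw [Finset.sum_eq_single i]
      · rw [one_mul]
      · intro j _ hj
        have hj2 : Fin.rev j ≠ j := by
          intro h
          apply hj
          have h1 : (Fin.rev j).val = j.val := by rw [h]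
          have h2 : (Fin.rev i).val = i.val := by rw [hi]
          rw [Fin.val_rev] at h1 h2
          apply Fin.ext
          omega
        have := D0 j hj2
        rw [hD] at this
        simp only at this
        rw [this, mul_zero]
      · intro h; exact absurd (mem_univ i) h
    rw [this] at f1
    rw [hD] at f1
    simp only at f1
    linear_combination f1
  · have := D0 i hi
    rw [hD] at this
    simp only at this
    linear_combination this


theorem s_PROP : S_PROP := by
  intro n v Φ hR hT i0 hi0 l hl i y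
  exact proportional hR hT i0 hi0 l hl i y

end Pool.Agent.L7h99.RV
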