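import Pool.Agent.L7h57.RV.Stm

/-! Project RV: THM (product of three involutions when there are no invariants). -/

namespace Pool.Agent.L7h99.RV

open MvPolynomial Finset Pool.Helper89.Rev Pool.Agent.L7h57.RV

variable {n : ℕ}

theorem eval_bind {n : ℕ} (f : Fin n → MvPolynomial (Fin n) ℂ) (h : MvPolynomial (Fin n) ℂ)
    (y : Fin n → ℂ) : eval y (bind₁ f h) = eval (fun k => eval y (f k)) h := by
  induction h using MvPolynomial.induction_on with
  | C a => simp
  | add p q hp hq => rw [map_add, map_add, map_add, hp, hq]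
  | mul_X p i hp => rw [map_mul, map_mul, map_mul, hp, bind₁_X_right, eval_X]

theorem vanish (hP : S_PROP) (hn : 2 ≤ n) (hNI : NoInv n) {v : Fin n → ℂ} (hv : Good v) {d : ℕ}
    (hd : 2 ≤ d) {Φ : Fin n → MvPolynomial (Fin n) ℂ} (hΦ : HomT d Φ) (hR : ReflComm v Φ)
    (hT : TorusComm Φ) : ∀ i, Φ i = 0 := by
  classical
  obtain ⟨i0, hi0⟩ : ∃ i0, v i0 ≠ 0 := by
    rcases hv.2.1 ⟨0, by omega⟩ with h | h
    · exact ⟨_, h⟩
    · exact ⟨_, h⟩
  set l : Fin n := ⟨0, by omega⟩ with hl
  have hlr : Fin.rev l ≠ l := by
    intro h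
    have h1 : (Fin.rev l).val = l.val := by rw [h]
    rw [Fin.val_rev] at h1
    simp only [hl] at h1
    omega
  have hpr : ∀ m : Fin n, Fin.rev m ≠ m → ∀ i, Φ i * X m = X i * Φ m := by
    intro m hm i
    apply MvPolynomial.funext
    intro y
    simp only [map_mul, eval_X]
    exact hP n v Φ hR hT i0 hi0 m hm i y
  have hXl : (X l : MvPolynomial (Fin n) ℂ) ≠ 0 := X_ne_zero l
  obtain ⟨h, hh⟩ : (X l : MvPolynomial (Fin n) ℂ) ∣ Φ l := by
    have h1 : (X l : MvPolynomial (Fin n) ℂ) ∣ X (Fin.rev l) * Φ l := by
      rw [← hpr l hlr (Fin.rev l)]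
      exact dvd_mul_left _ _
    have hprime : Prime (X l : MvPolynomial (Fin n) ℂ) := by
      exact MvPolynomial.X_prime
    rcases hprime.dvd_or_dvd h1 with h2 | h2
    · exfalso
      obtain ⟨q, hq⟩ := h2
      have h3 := congrArg (eval (fun k => if k = l then (0 : ℂ) else 1)) hq
      simp [hlr] at h3
    · exact h2
  have hall : ∀ i, Φ i = X i * h := by
    intro i
    have h1 := hpr l hlr i
    rw [hh] at h1
    have h2 : X l * (Φ i - X i * h) = 0 := by linear_combination h1
    rcases mul_eq_zero.1 h2 with h3 | h3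
    · exact absurd h3 hXl
    · exact sub_eq_zero.1 h3
  have hhom : h.IsHomogeneous (d - 1) := by
    intro m hm
    have h1 : coeff (Finsupp.single l 1 + m) (Φ l) ≠ 0 := by
      rw [hh, MvPolynomial.coeff_X_mul]
      exact hm
    have h2 := hΦ l h1
    rw [map_add] at h2
    have h3 : (Finsupp.weight (1 : Fin n → ℕ)) (Finsupp.single l 1) = 1 := by
      simp [Finsupp.weight_apply]
    rw [h3] at h2
    omega
  have htor : ∀ lam : Fin n → ℂ, IsTorus lam → ∀ y : Fin n → ℂ,
      eval (fun k => lam k * y k) h = eval y h := by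
    intro lam hlam y
    have h1 := mul_eval_eq_zero (g := X l)
      (h := bind₁ (fun k => C (lam k) * X k) h - h) hXl (by
        intro y
        have h2 := hT lam hlam y l
        rw [hall l] at h2
        simp only [map_mul, eval_X] at h2
        rw [map_sub, eval_bind]
        simp only [map_mul, eval_X, eval_C]
        have h3 : lam l * (y l * (eval (fun k => lam k * y k) h - eval y h)) = 0 := by
          linear_combination h2
        exact (mul_eq_zero.1 h3).resolve_left (hlam.ne_zero l)) y
    rw [map_sub, eval_bind] at h1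
    simp only [map_mul, eval_X, eval_C] at h1
    exact sub_eq_zero.1 h1
  have href : ∀ y : Fin n → ℂ, eval (fun k => y k - 2 * (∑ j, y j) * v k) h = eval y h := by
    intro y
    set f : Fin n → MvPolynomial (Fin n) ℂ := fun k => X k - C (2 * v k) * ∑ j, X j with hf
    have ev : ∀ (y : Fin n → ℂ) k, eval y (f k) = y k - 2 * (∑ j, y j) * v k := by
      intro y k
      simp only [hf, map_sub, map_mul, eval_X, eval_C, map_sum]
      ring
    have hfl : f l ≠ 0 := by
      apply ne_zero_of_eval (fun k => if k = l then (1 : ℂ) else if k = Fin.rev l then -1 else 0)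
      rw [ev]
      have hs : ∑ j, (if j = l then (1 : ℂ) else if j = Fin.rev l then -1 else 0) = 0 := by
        have h1 : ∀ j ∈ (univ : Finset (Fin n)),
            (if j = l then (1 : ℂ) else if j = Fin.rev l then -1 else 0) =
            (if j = l then 1 else 0) + (if j = Fin.rev l then -1 else 0) := by
          intro j _
          by_cases h1 : j = l
          · subst h1
            simp [Ne.symm hlr]
          · simp [h1]
        rw [Finset.sum_congr rfl h1, Finset.sum_add_distrib]
        simp
      rw [hs]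
      simp
    have h1 := mul_eval_eq_zero (g := f l) (h := bind₁ f h - h) hfl (by
        intro y
        have h2 := hR y l
        have h3 : ∀ j, eval y (Φ j) = y j * eval y h := by
          intro j
          rw [hall j, map_mul, eval_X]
        rw [h3 l, Finset.sum_congr rfl (fun j _ => h3 j), ← Finset.sum_mul, hall l, map_mul,
          eval_X] at h2
        rw [ev, map_sub, eval_bind]
        have h4 : (fun k => eval y (f k)) = fun k => y k - 2 * (∑ j, y j) * v k := by
          funext k
          exact ev y k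
        rw [h4]
        linear_combination h2) y
    rw [map_sub, eval_bind] at h1
    have h4 : (fun k => eval y (f k)) = fun k => y k - 2 * (∑ j, y j) * v k := by
      funext k
      exact ev y k
    rw [h4] at h1
    exact sub_eq_zero.1 h1
  have h0 := hNI v hv (d - 1) h (by omega) hhom htor href
  intro i
  rw [hall i, h0, mul_zero]

theorem s_THM (hP : S_PROP) : S_THM := by
  intro n hn hNI v hv F g g' hg hg' hL
  set g0 : G n := unitOf g g' hg hg' with hg0
  have hsum := hv.1
  obtain ⟨b1, b2, b3, B1, B2, B3, hB⟩ := three_involutions ![AJ n, Jm n, Sm v]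
    (by
      intro j
      fin_cases j
      · exact AJ_sq n
      · exact Jm_sq n
      · exact Sm_sq v hsum)
    (by
      intro d hd w hw
      apply solve_lin d _ _ _ (AJ_sq n) (Jm_sq n) (Sm_sq v hsum) _ w hw
      intro Φ hΦ h1 h2 h3
      exact vanish hP hn hNI hv hd hΦ (reflComm_of_equiv h3)
        (torusComm_of_diagComm (diagComm_of_equiv h1 h2)))
    (g0⁻¹ * F * g0) (by
      have e1 : linPart ((g0⁻¹ : G n) : FormalMap n) = g' := linPart_ofMatrix g'
      have e2 : linPart (g0 : FormalMap n) = g := linPart_ofMatrix g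
      simp only [Units.val_mul, linPart_mul, e1, e2]
      rw [hL]
      change _ = AJ n * Jm n * Sm v
      calc g' * (g * (AJ n * Jm n * Sm v) * g') * g =
          (g' * g) * (AJ n * Jm n * Sm v) * (g' * g) := by
            simp only [Matrix.mul_assoc]
        _ = _ := by rw [hg', Matrix.one_mul, Matrix.mul_one])
  have hconj : ∀ b : G n, b * b = 1 → g0 * b * g0⁻¹ * (g0 * b * g0⁻¹) = 1 := by
    intro b hb
    calc (g0 * b * g0⁻¹) * (g0 * b * g0⁻¹) = g0 * (b * b) * g0⁻¹ := by group
      _ = 1 := by rw [hb, mul_one, mul_inv_cancel]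
  refine ⟨![g0 * b1 * g0⁻¹, g0 * b2 * g0⁻¹, g0 * b3 * g0⁻¹], ?_, ?_⟩
  · intro j
    fin_cases j
    · exact hconj b1 B1
    · exact hconj b2 B2
    · exact hconj b3 B3
  · have h1 : F = g0 * (g0⁻¹ * F * g0) * g0⁻¹ := by group
    rw [h1, hB]
    simp only [List.ofFn_succ, List.prod_cons]
    simp [mul_assoc]

end Pool.Agent.L7h99.RV
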