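import Pool.Agent.L7h57.RV.Stm

/-! Project RV: L2A, L2B, NI2 (dimension two). -/

namespace Pool.Agent.L7h99.RV

open MvPolynomial Finset Pool.Helper89.Rev Pool.Agent.L7h57.RV

/-- a non-scalar `2 × 2` matrix is similar to its companion matrix -/
theorem companion (M : Matrix (Fin 2) (Fin 2) ℂ) (hM : ∀ c : ℂ, M ≠ c • 1) :
    ∃ g g' : Matrix (Fin 2) (Fin 2) ℂ, g * g' = 1 ∧ g' * g = 1 ∧
      M = g * !![0, -M.det; 1, M.trace] * g' := by
  have key : ∀ P : Matrix (Fin 2) (Fin 2) ℂ, P.det ≠ 0 →
      M * P = P * !![0, -M.det; 1, M.trace] →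
      ∃ g g' : Matrix (Fin 2) (Fin 2) ℂ, g * g' = 1 ∧ g' * g = 1 ∧
        M = g * !![0, -M.det; 1, M.trace] * g' := by
    intro P hP h
    have hu : IsUnit P.det := isUnit_iff_ne_zero.2 hP
    refine ⟨P, P⁻¹, Matrix.mul_nonsing_inv P hu, Matrix.nonsing_inv_mul P hu, ?_⟩
    rw [← h, Matrix.mul_assoc, Matrix.mul_nonsing_inv P hu, Matrix.mul_one]
  by_cases hc : M 1 0 ≠ 0
  · apply key !![1, M 0 0; 0, M 1 0]
    · rw [Matrix.det_fin_two]
      simpa using hc
    · ext i j
      fin_cases i <;> fin_cases j <;>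
        simp [Matrix.mul_apply, Fin.sum_univ_two, Matrix.det_fin_two, Matrix.trace_fin_two] <;> ring
  · push Not at hc
    by_cases hb : M 0 1 ≠ 0
    · apply key !![0, M 0 1; 1, M 1 1]
      · rw [Matrix.det_fin_two]
        simpa using hb
      · ext i j
        fin_cases i <;> fin_cases j <;>
          simp [Matrix.mul_apply, Fin.sum_univ_two, Matrix.det_fin_two, Matrix.trace_fin_two] <;>
          ring
    · push Not at hb
      have had : M 0 0 ≠ M 1 1 := by
        intro h
        apply hM (M 0 0)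
        ext i j
        fin_cases i <;> fin_cases j
        · simp
        · simp [hb]
        · simp [hc]
        · simp [h]
      apply key !![1, M 0 0; 1, M 1 1]
      · rw [Matrix.det_fin_two]
        simp only [Matrix.of_apply, Matrix.cons_val', Matrix.cons_val_zero, Matrix.cons_val_one,
          Matrix.cons_val_fin_one]
        intro h
        apply had
        linear_combination -h
      · ext i j
        fin_cases i <;> fin_cases j <;>
          simp [Matrix.mul_apply, Fin.sum_univ_two, Matrix.det_fin_two, Matrix.trace_fin_two,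
            hb, hc] <;> ring

theorem s_L2A : S_L2A := by
  intro L hdet htr hL
  have hb : bv (0 : Fin 2) * bv (1 : Fin 2) = 1 := bv_rev (0 : Fin 2)
  have hbne : bv (0 : Fin 2) - bv (1 : Fin 2) ≠ 0 := by
    intro h
    have := bv_injective (n := 2) (sub_eq_zero.1 h)
    exact absurd this (by decide)
  have hb0 : bv (0 : Fin 2) ≠ 0 := bv_ne_zero _
  have hb1 : bv (1 : Fin 2) ≠ 0 := bv_ne_zero _
  set b0 := bv (0 : Fin 2) with hb0d
  set b1 := bv (1 : Fin 2) with hb1d
  set x : ℂ := (1 - L.trace / (b0 - b1)) / 2 with hx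
  have hx2 : (b0 - b1) * (1 - 2 * x) = L.trace := by
    rw [hx]
    field_simp
    ring
  set v : Fin 2 → ℂ := ![x, 1 - x] with hv
  set H : Matrix (Fin 2) (Fin 2) ℂ := AJ 2 * Jm 2 * Sm v with hH
  have Happ : ∀ i j, H i j = bv i * ((if i = j then 1 else 0) - 2 * v j) := H_apply v
  have H00 : H 0 0 = b0 * (1 - 2 * x) := by rw [Happ, ← hb0d]; simp [hv]
  have H01 : H 0 1 = b0 * (-2 * (1 - x)) := by rw [Happ, ← hb0d]; simp [hv]
  have H10 : H 1 0 = b1 * (-2 * x) := by rw [Happ, ← hb1d]; simp [hv]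
  have H11 : H 1 1 = b1 * (1 - 2 * (1 - x)) := by rw [Happ, ← hb1d]; simp [hv]
  have hHdet : H.det = -1 := by
    rw [Matrix.det_fin_two, H00, H01, H10, H11]
    linear_combination (-1 : ℂ) * hb
  have hHtr : H.trace = L.trace := by
    rw [Matrix.trace_fin_two, H00, H11, ← hx2]
    ring
  have hHs : ∀ c : ℂ, H ≠ c • 1 := by
    intro c hc
    have e1 : H 0 1 = 0 := by rw [hc]; simp
    have e2 : H 1 0 = 0 := by rw [hc]; simp
    rw [H01] at e1
    rw [H10] at e2
    have f1 := (mul_eq_zero.1 e1).resolve_left hb0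
    have f2 := (mul_eq_zero.1 e2).resolve_left hb1
    have : (2 : ℂ) = 0 := by linear_combination -f1 - f2
    exact two_ne_zero this
  have hgood : Good v := by
    refine ⟨by simp [hv, Fin.sum_univ_two], ?_, 0, ?_⟩
    · intro i
      by_contra hcon
      push Not at hcon
      obtain ⟨h1, h2⟩ := hcon
      fin_cases i
      · have h1' : x = 0 := by simpa [hv] using h1
        have h2' : 1 - x = 0 := by simpa [hv] using h2
        have : (1 : ℂ) = 0 := by linear_combination h1' + h2'
        exact one_ne_zero this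
      · have h1' : 1 - x = 0 := by simpa [hv] using h1
        have h2' : x = 0 := by simpa [hv] using h2
        have : (1 : ℂ) = 0 := by linear_combination h1' + h2'
        exact one_ne_zero this
    · intro h
      have h' : x = 1 - x := by simpa [hv] using h
      apply htr
      rw [← hx2]
      linear_combination (-(b0 - b1)) * h'
  obtain ⟨g, g', hg, hg', hgL⟩ := companion L hL
  obtain ⟨k, k', hk, hk', hkH⟩ := companion H hHs
  refine ⟨v, g * k', k * g', hgood, ?_, ?_, ?_⟩
  · calc g * k' * (k * g') = g * (k' * k) * g' := by simp only [Matrix.mul_assoc]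
      _ = 1 := by rw [hk', Matrix.mul_one, hg]
  · calc k * g' * (g * k') = k * (g' * g) * k' := by simp only [Matrix.mul_assoc]
      _ = 1 := by rw [hg', Matrix.mul_one, hk]
  · have hC : k' * H * k = !![0, -L.det; 1, L.trace] := by
      rw [hkH, hHdet, hHtr, hdet]
      calc k' * (k * !![0, -(-1); 1, L.trace] * k') * k =
          (k' * k) * !![0, -(-1); 1, L.trace] * (k' * k) := by simp only [Matrix.mul_assoc]
        _ = _ := by rw [hk', Matrix.one_mul, Matrix.mul_one]
    calc L = g * !![0, -L.det; 1, L.trace] * g' := hgL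
      _ = g * (k' * H * k) * g' := by rw [hC]
      _ = g * k' * H * (k * g') := by simp only [Matrix.mul_assoc]

theorem s_L2B : S_L2B := by
  intro L hdet hL
  obtain ⟨g, g', hg, hg', hgL⟩ := companion L hL
  rw [hdet] at hgL
  set t := L.trace with ht
  set C0 : Matrix (Fin 2) (Fin 2) ℂ := !![0, -1; 1, t] with hC0
  set s0 : Matrix (Fin 2) (Fin 2) ℂ := !![1, t + 1; 0, -1] with hs0
  have hs0sq : s0 * s0 = 1 := by
    rw [hs0]
    ext i j
    fin_cases i <;> fin_cases j <;> simp [Matrix.mul_apply, Fin.sum_univ_two]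
  have hCs : C0 * s0 = !![0, 1; 1, 1] := by
    rw [hC0, hs0]
    ext i j
    fin_cases i <;> fin_cases j <;> simp [Matrix.mul_apply, Fin.sum_univ_two]
  have hLs : L * (g * s0 * g') = g * !![0, 1; 1, 1] * g' := by
    calc L * (g * s0 * g') = (g * C0 * g') * (g * s0 * g') := by rw [← hgL]
      _ = g * C0 * (g' * g) * s0 * g' := by simp only [Matrix.mul_assoc]
      _ = g * (C0 * s0) * g' := by rw [hg', Matrix.mul_one]; simp only [Matrix.mul_assoc]
      _ = _ := by rw [hCs]
  refine ⟨g * s0 * g', ?_, ?_, ?_, ?_⟩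
  · calc g * s0 * g' * (g * s0 * g') = g * s0 * (g' * g) * s0 * g' := by
          simp only [Matrix.mul_assoc]
      _ = g * (s0 * s0) * g' := by rw [hg', Matrix.mul_one]; simp only [Matrix.mul_assoc]
      _ = 1 := by rw [hs0sq, Matrix.mul_one, hg]
  · rw [hLs, Matrix.det_mul, Matrix.det_mul]
    have h1 : g.det * g'.det = 1 := by rw [← Matrix.det_mul, hg, Matrix.det_one]
    rw [Matrix.det_fin_two_of]
    linear_combination (-1 : ℂ) * h1
  · rw [hLs, Matrix.trace_mul_comm, ← Matrix.mul_assoc, hg', Matrix.one_mul,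
      Matrix.trace_fin_two_of]
    norm_num
  · intro c hc
    rw [hLs] at hc
    have h1 : !![(0 : ℂ), 1; 1, 1] = c • 1 := by
      calc !![(0 : ℂ), 1; 1, 1] = (g' * g) * !![0, 1; 1, 1] * (g' * g) := by
            rw [hg', Matrix.one_mul, Matrix.mul_one]
        _ = g' * (g * !![0, 1; 1, 1] * g') * g := by simp only [Matrix.mul_assoc]
        _ = c • 1 := by
            rw [hc]
            rw [Matrix.mul_smul, Matrix.mul_one, Matrix.smul_mul, hg']
    have h2 := congrFun (congrFun h1 0) 1
    simp at h2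

theorem s_NI2 : S_NI2 := by
  intro v hv d h hd hhom htor href
  -- torus elements
  have hT : ∀ z : ℂ, z ≠ 0 → IsTorus ![z, z⁻¹] := by
    intro z hz
    constructor
    · intro i
      fin_cases i
      · simp [hz]
      · simp [hz]
    · intro i hi
      exfalso
      fin_cases i
      · simp at hi
      · simp at hi
  have hTe : ∀ z a b : ℂ, z ≠ 0 → eval ![z * a, z⁻¹ * b] h = eval ![a, b] h := by
    intro z a b hz
    have h1 := htor _ (hT z hz) ![a, b]
    rw [← h1]
    congr 2
    ext k
    fin_cases k <;> simp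
  have hS : ∀ z a b : ℂ, eval ![z * a, z * b] h = z ^ d * eval ![a, b] h := by
    intro z a b
    rw [← eval_scale hhom z ![a, b]]
    congr 2
    ext k
    fin_cases k <;> simp
  have h2d : (2 : ℂ) ^ d - 1 ≠ 0 := by
    intro h
    have h1 : ((2 ^ d : ℕ) : ℂ) = ((1 : ℕ) : ℂ) := by
      push_cast
      linear_combination h
    have h2 : 2 ^ d = 1 := Nat.cast_injective h1
    have h3 : 2 ^ 1 ≤ 2 ^ d := Nat.pow_le_pow_right (by norm_num) hd
    omega
  have hx0 : ∀ a : ℂ, eval ![a, 0] h = 0 := by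
    intro a
    have h1 := hTe 2 a 0 two_ne_zero
    have h2 := hS 2 a 0
    simp only [mul_zero] at h1 h2
    rw [h1] at h2
    have h3 : ((2 : ℂ) ^ d - 1) * eval ![a, 0] h = 0 := by linear_combination -h2
    exact (mul_eq_zero.1 h3).resolve_left h2d
  have h0x : ∀ b : ℂ, eval ![0, b] h = 0 := by
    intro b
    have h1 := hTe (2⁻¹) 0 b (by norm_num)
    have h2 := hS 2 0 b
    simp only [mul_zero, inv_inv] at h1 h2
    rw [h1] at h2
    have h3 : ((2 : ℂ) ^ d - 1) * eval ![0, b] h = 0 := by linear_combination -h2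
    exact (mul_eq_zero.1 h3).resolve_left h2d
  set c := eval ![1, 1] h with hc
  have hsq : ∀ a b : ℂ, eval ![a, b] h ^ 2 = c ^ 2 * (a * b) ^ d := by
    intro a b
    by_cases ha : a = 0
    · rw [ha, h0x, zero_mul, zero_pow (by norm_num), zero_pow (by omega), mul_zero]
    by_cases hb : b = 0
    · rw [hb, hx0, mul_zero, zero_pow (by norm_num), zero_pow (by omega), mul_zero]
    obtain ⟨z, hz⟩ : ∃ z : ℂ, a / b = z * z := IsAlgClosed.exists_eq_mul_self _
    have hz0 : z ≠ 0 := by
      rintro rfl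
      rw [mul_zero] at hz
      exact div_ne_zero ha hb hz
    have ha' : a = z * z * b := by
      rw [← hz]
      field_simp
    have h1 := hTe z (z * b) (z * b) hz0
    have h2 := hS (z * b) 1 1
    rw [mul_one, ← hc] at h2
    have e1 : z * (z * b) = a := by rw [ha']; ring
    have e2 : z⁻¹ * (z * b) = b := by
      rw [← mul_assoc, inv_mul_cancel₀ hz0, one_mul]
    rw [e1, e2] at h1
    rw [h1, h2]
    have e3 : a * b = (z * b) * (z * b) := by rw [ha']; ring
    rw [e3, mul_pow, mul_pow (z * b) (z * b) d]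
    ring
  have hsum : v 0 + v 1 = 1 := by
    have := hv.1
    rwa [Fin.sum_univ_two] at this
  have hne : v 0 - v 1 ≠ 0 := by
    obtain ⟨i, hi⟩ := hv.2.2
    intro h
    apply hi
    fin_cases i
    · simpa using sub_eq_zero.1 h
    · simpa using (sub_eq_zero.1 h).symm
  have hcz : c = 0 := by
    by_contra hc0
    have hc2 : c ^ 2 ≠ 0 := pow_ne_zero 2 hc0
    have r1 := href ![1, 0]
    have r2 := href ![0, 1]
    have e1 : (fun k => (![(1 : ℂ), 0] : Fin 2 → ℂ) k - 2 * (∑ j, (![(1 : ℂ), 0] : Fin 2 → ℂ) j) * v k)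
        = ![1 - 2 * v 0, -2 * v 1] := by
      ext k
      fin_cases k <;> simp
    have e2 : (fun k => (![(0 : ℂ), 1] : Fin 2 → ℂ) k - 2 * (∑ j, (![(0 : ℂ), 1] : Fin 2 → ℂ) j) * v k)
        = ![-2 * v 0, 1 - 2 * v 1] := by
      ext k
      fin_cases k <;> simp
    rw [e1, hx0] at r1
    rw [e2, h0x] at r2
    have s1 := hsq (1 - 2 * v 0) (-2 * v 1)
    have s2 := hsq (-2 * v 0) (1 - 2 * v 1)
    rw [r1, zero_pow (by norm_num)] at s1
    rw [r2, zero_pow (by norm_num)] at s2
    have t1 := eq_zero_of_pow_eq_zero ((mul_eq_zero.1 s1.symm).resolve_left hc2)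
    have t2 := eq_zero_of_pow_eq_zero ((mul_eq_zero.1 s2.symm).resolve_left hc2)
    have u1 : v 1 = 0 := by
      have : (v 0 - v 1) * v 1 = 0 := by linear_combination (1 / 2 : ℂ) * t1 - v 1 * hsum
      exact (mul_eq_zero.1 this).resolve_left hne
    have u2 : v 0 = 0 := by
      have : (v 0 - v 1) * v 0 = 0 := by linear_combination (-1 / 2 : ℂ) * t2 + v 0 * hsum
      exact (mul_eq_zero.1 this).resolve_left hne
    rw [u1, u2] at hsum
    norm_num at hsum
  apply MvPolynomial.funext
  intro y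
  have h1 := hsq (y 0) (y 1)
  have e : (![y 0, y 1] : Fin 2 → ℂ) = y := by
    ext k
    fin_cases k <;> simp
  rw [e, hcz, zero_pow (by norm_num), zero_mul] at h1
  rw [map_zero]
  exact eq_zero_of_pow_eq_zero h1

end Pool.Agent.L7h99.RV
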